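import Mathlib

/-! Stable cuts in graphs with at most `2n - 4` edges (Chen and Yu), rooted form, on finite subsets of
a type with a symmetric irreflexive relation. -/

set_option autoImplicit false

namespace Pool.Agent.Lib.BipCut

open Finset

variable {α : Type*} [DecidableEq α]

/-- symmetry -/
def Sy (r : α → α → Prop) : Prop := ∀ ⦃x y⦄, r x y → r y x

/-- twice the number of edges inside `A` -/
def m2 (r : α → α → Prop) [DecidableRel r] (A : Finset α) : ℕ :=
  ((A ×ˢ A).filter fun p => r p.1 p.2).card

/-- `M` separates `L` from `R` in `A` -/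
structure Sep (r : α → α → Prop) (A M L R : Finset α) : Prop where
  union : A = M ∪ L ∪ R
  ml : Disjoint M L
  mr : Disjoint M R
  lr : Disjoint L R
  nel : L.Nonempty
  ner : R.Nonempty
  no : ∀ x ∈ L, ∀ y ∈ R, ¬ r x y

theorem Sep.symm {r : α → α → Prop} (hs : Sy r) {A M L R : Finset α} (h : Sep r A M L R) :
    Sep r A M R L where
  union := by rw [h.union, union_assoc, union_assoc, union_comm L R]
  ml := h.mr
  mr := h.ml
  lr := h.lr.symm
  nel := h.ner
  ner := h.nel
  no := fun x hx y hy hxy => h.no y hy x hx (hs hxy)

def Stab (r : α → α → Prop) (M : Finset α) : Prop := ∀ x ∈ M, ∀ y ∈ M, ¬ r x y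

variable {r : α → α → Prop} [DecidableRel r]

theorem m2_insert (hs : Sy r) (hi : ∀ x, ¬ r x x) {a : α} {A : Finset α} (ha : a ∉ A) :
    m2 r (insert a A) = m2 r A + 2 * (A.filter fun x => r a x).card := by
  unfold m2
  have h1 : ((insert a A ×ˢ insert a A).filter fun p => r p.1 p.2) =
      ((A ×ˢ A).filter fun p => r p.1 p.2) ∪
        (((A.filter fun x => r a x).image fun x => (a, x)) ∪
          ((A.filter fun x => r a x).image fun x => (x, a))) := by
    ext ⟨x, y⟩
    simp only [mem_filter, mem_product, mem_insert, mem_union, mem_image, Prod.mk.injEq]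
    constructor
    · rintro ⟨⟨hx | hx, hy | hy⟩, hr⟩
      · subst hx; subst hy; exact absurd hr (hi _)
      · subst hx; right; left; exact ⟨y, ⟨hy, hr⟩, rfl, rfl⟩
      · subst hy; right; right; exact ⟨x, ⟨hx, hs hr⟩, rfl, rfl⟩
      · left; exact ⟨⟨hx, hy⟩, hr⟩
    · rintro (⟨⟨hx, hy⟩, hr⟩ | ⟨z, ⟨hz, hr⟩, h1, h2⟩ | ⟨z, ⟨hz, hr⟩, h1, h2⟩)
      · exact ⟨⟨Or.inr hx, Or.inr hy⟩, hr⟩
      · subst h1; subst h2; exact ⟨⟨Or.inl rfl, Or.inr hz⟩, hr⟩
      · subst h1; subst h2; exact ⟨⟨Or.inr hz, Or.inl rfl⟩, hs hr⟩
  rw [h1, card_union_of_disjoint, card_union_of_disjoint, card_image_of_injective,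
    card_image_of_injective]
  · ring
  · intro x y h; simpa using h
  · intro x y h; simpa using h
  · rw [disjoint_left]
    rintro ⟨x, y⟩ hx hy
    simp only [mem_image, mem_filter, Prod.mk.injEq] at hx hy
    obtain ⟨z, ⟨hz, -⟩, h1, h2⟩ := hx
    obtain ⟨w, ⟨hw, -⟩, h3, h4⟩ := hy
    subst h1; subst h3; exact ha hw
  · rw [disjoint_left]
    rintro ⟨x, y⟩ hx hy
    simp only [mem_image, mem_filter, Prod.mk.injEq, mem_product, mem_union] at hx hy
    rcases hy with ⟨z, ⟨hz, -⟩, h1, h2⟩ | ⟨z, ⟨hz, -⟩, h1, h2⟩
    · subst h1; exact ha hx.1.1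
    · subst h2; exact ha hx.1.2

theorem m2_even (hs : Sy r) (hi : ∀ x, ¬ r x x) (A : Finset α) : Even (m2 r A) := by
  induction A using Finset.induction_on with
  | empty => simp [m2]
  | insert a A ha ih =>
    rw [m2_insert hs hi ha]
    exact ih.add (even_two_mul _)

theorem m2_union_le {A A₁ A₂ : Finset α} {u v : α} (h1 : A₁ ⊆ A) (h2 : A₂ ⊆ A)
    (h : A₁ ∩ A₂ ⊆ {u, v}) (hi : ∀ x, ¬ r x x) : m2 r A₁ + m2 r A₂ ≤ m2 r A + 2 := by
  unfold m2
  rw [← card_union_add_card_inter]
  apply Nat.add_le_add
  · apply card_le_card
    intro p hp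
    simp only [mem_union, mem_filter, mem_product] at hp ⊢
    rcases hp with ⟨⟨ha, hb⟩, hr⟩ | ⟨⟨ha, hb⟩, hr⟩
    · exact ⟨⟨h1 ha, h1 hb⟩, hr⟩
    · exact ⟨⟨h2 ha, h2 hb⟩, hr⟩
  · have : (((A₁ ×ˢ A₁).filter fun p => r p.1 p.2) ∩ ((A₂ ×ˢ A₂).filter fun p => r p.1 p.2)) ⊆
        ({(u, v), (v, u)} : Finset (α × α)) := by
      rintro ⟨x, y⟩ hp
      simp only [mem_inter, mem_filter, mem_product] at hp
      obtain ⟨⟨⟨a1, a2⟩, hr⟩, ⟨b1, b2⟩, -⟩ := hp
      have hx := h (mem_inter.2 ⟨a1, b1⟩)
      have hy := h (mem_inter.2 ⟨a2, b2⟩)
      simp only [mem_insert, mem_singleton] at hx hy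
      simp only [mem_insert, mem_singleton, Prod.mk.injEq]
      rcases hx with hx | hx <;> rcases hy with hy | hy <;> subst hx <;> subst hy
      · exact absurd hr (hi _)
      · left; exact ⟨rfl, rfl⟩
      · right; exact ⟨rfl, rfl⟩
      · exact absurd hr (hi _)
    exact (card_le_card this).trans card_le_two

/-- contraction of `v` into `u` -/
def con (r : α → α → Prop) (u v : α) (x y : α) : Prop :=
  x ≠ y ∧ (r x y ∨ (x = u ∧ r v y) ∨ (y = u ∧ r x v))

instance (u v : α) : DecidableRel (con r u v) := fun _ _ => by unfold con; infer_instance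

theorem con_symm (hs : Sy r) (u v : α) : Sy (con r u v) := by
  rintro x y ⟨h, h1 | ⟨h1, h2⟩ | ⟨h1, h2⟩⟩
  · exact ⟨h.symm, Or.inl (hs h1)⟩
  · exact ⟨h.symm, Or.inr (Or.inr ⟨h1, hs h2⟩)⟩
  · exact ⟨h.symm, Or.inr (Or.inl ⟨h1, hs h2⟩)⟩

theorem con_irrefl (u v : α) : ∀ x, ¬ con r u v x x := fun _ h => h.1 rfl

theorem m2_con (hs : Sy r) (hi : ∀ x, ¬ r x x) {A : Finset α} {u v w : α} (hu : u ∈ A)
    (hv : v ∈ A) (hw : w ∈ A) (huv : r u v) (huw : r u w) (hvw : r v w) :
    m2 (con r u v) (A.erase v) + 4 ≤ m2 r A := by
  have nuv : u ≠ v := fun e => hi u (by rw [← e] at huv; exact huv)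
  have nuw : u ≠ w := fun e => hi u (by rw [← e] at huw; exact huw)
  have nvw : v ≠ w := fun e => hi v (by rw [← e] at hvw; exact hvw)
  set F : Finset (α × α) := {(u, v), (v, u), (v, w), (w, v)} with hF
  have hFc : F.card = 4 := by
    rw [hF]
    rw [card_insert_of_notMem, card_insert_of_notMem, card_insert_of_notMem, card_singleton]
    · simp [nvw]
    · simp only [mem_insert, mem_singleton, Prod.mk.injEq, not_or, not_and]
      exact ⟨fun _ => nuw, fun h _ => nvw h⟩
    · simp only [mem_insert, mem_singleton, Prod.mk.injEq, not_or, not_and]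
      exact ⟨fun h _ => nuv h, fun h _ => nuv h, fun h _ => nuw h⟩
  have hFs : F ⊆ (A ×ˢ A).filter fun p => r p.1 p.2 := by
    intro p hp
    rw [hF] at hp
    simp only [mem_insert, mem_singleton] at hp
    rw [mem_filter, mem_product]
    rcases hp with hp | hp | hp | hp <;> subst hp
    · exact ⟨⟨hu, hv⟩, huv⟩
    · exact ⟨⟨hv, hu⟩, hs huv⟩
    · exact ⟨⟨hv, hw⟩, hvw⟩
    · exact ⟨⟨hw, hv⟩, hs hvw⟩
  have key : m2 (con r u v) (A.erase v) ≤ (((A ×ˢ A).filter fun p => r p.1 p.2) \ F).card := by
    unfold m2
    let f : α × α → α × α := fun p =>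
      if r p.1 p.2 then p else if p.1 = u then (v, p.2) else (p.1, v)
    apply card_le_card_of_injOn f
    · rintro ⟨x, y⟩ hp
      simp only [coe_filter, mem_product, mem_erase, Set.mem_ofPred_eq] at hp
      obtain ⟨⟨⟨hxv, hx⟩, hyv, hy⟩, hxy, h⟩ := hp
      simp only [coe_sdiff, coe_filter, mem_product, Set.mem_sdiff, Set.mem_ofPred_eq, mem_coe]
      by_cases h1 : r x y
      · have e : f (x, y) = (x, y) := by simp [f, h1]
        rw [e]
        refine ⟨⟨⟨hx, hy⟩, h1⟩, ?_⟩
        rw [hF]
        simp only [mem_insert, mem_singleton, Prod.mk.injEq, not_or, not_and]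
        exact ⟨fun _ => hyv, fun h => absurd h hxv, fun h => absurd h hxv, fun _ => hyv⟩
      · by_cases h2 : x = u
        · have e : f (x, y) = (v, y) := by simp only [f]; rw [if_neg h1, if_pos h2]
          rw [e]
          have h3 : r v y := by
            rcases h with h | ⟨-, h⟩ | ⟨h, -⟩
            · exact absurd h h1
            · exact h
            · exact absurd (h2.trans h.symm) hxy
          refine ⟨⟨⟨hv, hy⟩, h3⟩, ?_⟩
          rw [hF]
          simp only [mem_insert, mem_singleton, Prod.mk.injEq, not_or, not_and]
          refine ⟨fun h => absurd h nuv.symm, fun _ h => hxy (h2.trans h.symm), fun _ h => ?_,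
            fun h => absurd h nvw⟩
          rw [h, h2] at h1
          exact h1 huw
        · have e : f (x, y) = (x, v) := by simp [f, h1, h2]
          rw [e]
          have h3 : y = u ∧ r x v := by
            rcases h with h | ⟨h, -⟩ | h
            · exact absurd h h1
            · exact absurd h h2
            · exact h
          refine ⟨⟨⟨hx, hv⟩, h3.2⟩, ?_⟩
          rw [hF]
          simp only [mem_insert, mem_singleton, Prod.mk.injEq, not_or, not_and]
          refine ⟨fun h => absurd h h2, fun h => absurd h hxv, fun h => absurd h hxv, fun h _ => ?_⟩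
          rw [h, h3.1] at h1
          exact h1 (hs huw)
    · rintro ⟨x, y⟩ hp ⟨x', y'⟩ hp' heq
      simp only [coe_filter, mem_product, mem_erase, Set.mem_ofPred_eq] at hp hp'
      obtain ⟨⟨⟨hxv, hx⟩, hyv, hy⟩, hxy, h⟩ := hp
      obtain ⟨⟨⟨hxv', hx'⟩, hyv', hy'⟩, hxy', h'⟩ := hp'
      have aux : ∀ {x y : α}, x ≠ y → (r x y ∨ (x = u ∧ r v y) ∨ (y = u ∧ r x v)) → ¬ r x y →
          x ≠ u → y = u := by
        intro x y _ h h1 h2
        rcases h with h | ⟨h, -⟩ | ⟨h, -⟩
        · exact absurd h h1
        · exact absurd h h2
        · exact h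
      simp only [f] at heq
      by_cases h1 : r x y
      · rw [if_pos h1] at heq
        by_cases h1' : r x' y'
        · rw [if_pos h1'] at heq; exact heq
        · rw [if_neg h1'] at heq
          by_cases h2' : x' = u
          · rw [if_pos h2'] at heq
            exact absurd (Prod.mk.inj heq).1 hxv
          · rw [if_neg h2'] at heq
            exact absurd (Prod.mk.inj heq).2 hyv
      · rw [if_neg h1] at heq
        by_cases h2 : x = u
        · rw [if_pos h2] at heq
          by_cases h1' : r x' y'
          · rw [if_pos h1'] at heq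
            exact absurd (Prod.mk.inj heq).1.symm hxv'
          · rw [if_neg h1'] at heq
            by_cases h2' : x' = u
            · rw [if_pos h2'] at heq
              rw [h2, h2', (Prod.mk.inj heq).2]
            · rw [if_neg h2'] at heq
              exact absurd (Prod.mk.inj heq).1.symm hxv'
        · rw [if_neg h2] at heq
          by_cases h1' : r x' y'
          · rw [if_pos h1'] at heq
            exact absurd (Prod.mk.inj heq).2.symm hyv'
          · rw [if_neg h1'] at heq
            by_cases h2' : x' = u
            · rw [if_pos h2'] at heq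
              exact absurd (Prod.mk.inj heq).1 hxv
            · rw [if_neg h2'] at heq
              rw [aux hxy h h1 h2, aux hxy' h' h1' h2', (Prod.mk.inj heq).1]
  rw [card_sdiff_of_subset hFs, hFc] at key
  have := card_le_card hFs
  rw [hFc] at this
  unfold m2 at *
  omega

/-- Rooted form of the theorem of Chen and Yu. -/
theorem chen_yu : ∀ (n : ℕ) (r : α → α → Prop) [DecidableRel r], Sy r → (∀ x, ¬ r x x) →
    ∀ A : Finset α, A.card = n → m2 r A + 8 ≤ 4 * n → ∀ u ∈ A,
      (∃ M L R, Sep r A M L R ∧ Stab r M ∧ u ∉ M) ∨ ∃ L R, Sep r A {u} L R := by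
  intro n
  induction n using Nat.strong_induction_on with
  | _ n IH =>
  intro r _ hs hi A hA hm u hu
  by_cases hN : ∃ v ∈ A, ∃ w ∈ A, r u v ∧ r u w ∧ r v w
  · obtain ⟨v, hv, w, hw, huv, huw, hvw⟩ := hN
    have nuv : u ≠ v := fun e => hi u (by rw [← e] at huv; exact huv)
    have hc := m2_con hs hi hu hv hw huv huw hvw
    have hA' : (A.erase v).card = n - 1 := by rw [card_erase_of_mem hv, hA]
    have hn : 0 < n := by rw [← hA]; exact card_pos.2 ⟨u, hu⟩
    rcases IH (n - 1) (by omega) (con r u v) (con_symm hs u v) (con_irrefl u v) (A.erase v) hA'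
      (by omega) u (mem_erase.2 ⟨nuv, hu⟩) with ⟨M, L, R, hS, hM, huM⟩ | ⟨L, R, hS⟩
    · -- a stable cut of the contraction avoiding `u`
      have hstab : Stab r M := by
        intro x hx y hy hxy
        exact hM x hx y hy ⟨fun e => hi x (by rw [← e] at hxy; exact hxy), Or.inl hxy⟩
      have huA : u ∈ M ∪ L ∪ R := by rw [← hS.union]; exact mem_erase.2 ⟨nuv, hu⟩
      have vM : v ∉ M := fun h => by
        have : v ∈ A.erase v := by rw [hS.union]; simp [h]
        simp at this
      have vL : v ∉ L := fun h => by
        have : v ∈ A.erase v := by rw [hS.union]; simp [h]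
        simp at this
      have vR : v ∉ R := fun h => by
        have : v ∈ A.erase v := by rw [hS.union]; simp [h]
        simp at this
      have key : ∀ L R : Finset α, Sep (con r u v) (A.erase v) M L R → u ∈ L → v ∉ L → v ∉ R →
          Sep r A M (insert v L) R := by
        intro L R hS huL vL vR
        refine ⟨?_, ?_, hS.mr, ?_, ⟨v, mem_insert_self _ _⟩, hS.ner, ?_⟩
        · have := hS.union
          rw [← insert_erase hv, this]
          ext x
          simp only [mem_insert, mem_union]
          tauto
        · rw [disjoint_insert_right]; exact ⟨vM, hS.ml⟩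
        · rw [disjoint_insert_left]; exact ⟨vR, hS.lr⟩
        · intro x hx y hy hxy
          rw [mem_insert] at hx
          rcases hx with hx | hx
          · subst hx
            refine hS.no u huL y hy ⟨?_, Or.inr (Or.inl ⟨rfl, hxy⟩)⟩
            rintro rfl
            exact disjoint_left.1 hS.lr huL hy
          · exact hS.no x hx y hy ⟨fun e => hi x (by rw [← e] at hxy; exact hxy), Or.inl hxy⟩
      left
      rw [mem_union, mem_union] at huA
      rcases huA with (h | h) | h
      · exact absurd h huM
      · exact ⟨M, insert v L, R, key L R hS h vL vR, hstab, huM⟩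
      · exact ⟨M, insert v R, L, key R L (hS.symm (con_symm hs u v)) h vR vL, hstab, huM⟩
    · -- `{u, v}` separates
      have vL : v ∉ L := fun h => by
        have : v ∈ A.erase v := by rw [hS.union]; simp [h]
        simp at this
      have vR : v ∉ R := fun h => by
        have : v ∈ A.erase v := by rw [hS.union]; simp [h]
        simp at this
      have uL : u ∉ L := disjoint_singleton_left.1 hS.ml
      have uR : u ∉ R := disjoint_singleton_left.1 hS.mr
      have hAe : A = insert u (insert v (L ∪ R)) := by
        rw [← insert_erase hv, hS.union]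
        ext x
        simp only [mem_insert, mem_union, mem_singleton]
        tauto
      have hno : ∀ x ∈ L, ∀ y ∈ R, ¬ r x y := fun x hx y hy hxy =>
        hS.no x hx y hy ⟨fun e => hi x (by rw [← e] at hxy; exact hxy), Or.inl hxy⟩
      have hcard : A.card = L.card + R.card + 2 := by
        rw [hAe, card_insert_of_notMem, card_insert_of_notMem, card_union_of_disjoint hS.lr]
        · simp [vL, vR]
        · simp [uL, uR, nuv]
      have key : ∀ L R : Finset α, A = insert u (insert v (L ∪ R)) → v ∉ L → v ∉ R → u ∉ L →
          u ∉ R → Disjoint L R → L.Nonempty → R.Nonempty → (∀ x ∈ L, ∀ y ∈ R, ¬ r x y) →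
          A.card = L.card + R.card + 2 →
          m2 r (insert u (insert v L)) + 8 ≤ 4 * (L.card + 2) →
          (∃ M L R, Sep r A M L R ∧ Stab r M ∧ u ∉ M) ∨ ∃ L R, Sep r A {u} L R := by
        intro L R hAe vL vR uL uR hLR hLne hRne hno hcard hm1
        have hc1 : (insert u (insert v L)).card = L.card + 2 := by
          rw [card_insert_of_notMem (by simp [uL, nuv]), card_insert_of_notMem vL]
        have hRpos : 0 < R.card := card_pos.2 hRne
        have sepx : ∀ (M L₁ R₁ : Finset α), Sep r (insert u (insert v L)) M L₁ R₁ → u ∈ M ∪ L₁ →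
            v ∈ M ∪ L₁ → Sep r A M (L₁ ∪ R) R₁ := by
          intro M L₁ R₁ h1 hu1 hv1
          have hM1 : M ⊆ insert u (insert v L) := by
            rw [h1.union]; exact subset_union_left.trans subset_union_left
          have hR1 : R₁ ⊆ insert u (insert v L) := by
            rw [h1.union]; exact subset_union_right
          have uR1 : u ∉ R₁ := by
            intro h
            rcases mem_union.1 hu1 with h' | h'
            · exact disjoint_left.1 h1.mr h' h
            · exact disjoint_left.1 h1.lr h' h
          have vR1 : v ∉ R₁ := by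
            intro h
            rcases mem_union.1 hv1 with h' | h'
            · exact disjoint_left.1 h1.mr h' h
            · exact disjoint_left.1 h1.lr h' h
          have hRL : R₁ ⊆ L := by
            intro x hx
            have := hR1 hx
            rw [mem_insert, mem_insert] at this
            rcases this with rfl | rfl | h
            · exact absurd hx uR1
            · exact absurd hx vR1
            · exact h
          have hMR : Disjoint M R := by
            rw [disjoint_left]
            intro x hx hxR
            have := hM1 hx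
            rw [mem_insert, mem_insert] at this
            rcases this with rfl | rfl | h
            · exact uR hxR
            · exact vR hxR
            · exact disjoint_left.1 hLR h hxR
          refine ⟨?_, ?_, h1.mr, ?_, h1.nel.mono subset_union_left, h1.ner, ?_⟩
          · have e : A = insert u (insert v L) ∪ R := by
              rw [hAe]; ext x; simp only [mem_insert, mem_union]; tauto
            rw [e, h1.union]
            ext x
            simp only [mem_union]
            tauto
          · rw [disjoint_union_right]; exact ⟨h1.ml, hMR⟩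
          · rw [disjoint_union_left]
            exact ⟨h1.lr, (hLR.symm.mono_right hRL)⟩
          · intro x hx y hy hxy
            rcases mem_union.1 hx with h | h
            · exact h1.no x h y hy hxy
            · exact hno y (hRL hy) x h (hs hxy)
        rcases IH (L.card + 2) (by omega) r hs hi _ hc1 hm1 u (mem_insert_self _ _) with
          ⟨M, L₁, R₁, h1, hst, huM⟩ | ⟨L₁, R₁, h1⟩
        · left
          have huU : u ∈ M ∪ L₁ ∪ R₁ := by rw [← h1.union]; exact mem_insert_self _ _
          have hvU : v ∈ M ∪ L₁ ∪ R₁ := by
            rw [← h1.union]; exact mem_insert_of_mem (mem_insert_self _ _)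
          rw [mem_union, mem_union] at huU hvU
          rcases huU with (h | h) | h
          · exact absurd h huM
          · have hv' : v ∈ M ∪ L₁ := by
              rcases hvU with h' | h'
              · exact mem_union.2 h'
              · exact absurd huv (h1.no u h v h')
            exact ⟨M, _, _, sepx M L₁ R₁ h1 (mem_union_right _ h) hv', hst, huM⟩
          · have hv' : v ∈ M ∪ R₁ := by
              rcases hvU with (h' | h') | h'
              · exact mem_union_left _ h'
              · exact absurd (hs huv) (h1.no v h' u h)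
              · exact mem_union_right _ h'
            exact ⟨M, _, _, sepx M R₁ L₁ (h1.symm hs) (mem_union_right _ h) hv', hst, huM⟩
        · right
          have hvU : v ∈ {u} ∪ L₁ ∪ R₁ := by
            rw [← h1.union]; exact mem_insert_of_mem (mem_insert_self _ _)
          rw [mem_union, mem_union, mem_singleton] at hvU
          rcases hvU with (h | h) | h
          · exact absurd h.symm nuv
          · exact ⟨_, _, sepx {u} L₁ R₁ h1 (by simp) (mem_union_right _ h)⟩
          · exact ⟨_, _, sepx {u} R₁ L₁ (h1.symm hs) (by simp) (mem_union_right _ h)⟩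
      have hle : m2 r (insert u (insert v L)) + m2 r (insert u (insert v R)) ≤ m2 r A + 2 := by
        apply m2_union_le (u := u) (v := v) _ _ _ hi
        · rw [hAe]
          exact insert_subset_insert _ (insert_subset_insert _ subset_union_left)
        · rw [hAe]
          exact insert_subset_insert _ (insert_subset_insert _ subset_union_right)
        · intro x hx
          rw [mem_inter, mem_insert, mem_insert, mem_insert, mem_insert] at hx
          rw [mem_insert, mem_singleton]
          rcases hx with ⟨h | h | h, h' | h' | h'⟩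
          all_goals first
            | exact Or.inl h
            | exact Or.inr h
            | exact Or.inl h'
            | exact Or.inr h'
            | exact absurd h' (disjoint_left.1 hS.lr h)
      obtain ⟨a, ha⟩ := m2_even hs hi (insert u (insert v L))
      obtain ⟨b, hb⟩ := m2_even hs hi (insert u (insert v R))
      by_cases h1 : m2 r (insert u (insert v L)) + 8 ≤ 4 * (L.card + 2)
      · exact key L R hAe vL vR uL uR hS.lr hS.nel hS.ner hno hcard h1
      · have h2 : m2 r (insert u (insert v R)) + 8 ≤ 4 * (R.card + 2) := by omega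
        refine key R L ?_ vR vL uR uL hS.lr.symm hS.ner hS.nel
          (fun x hx y hy hxy => hno y hy x hx (hs hxy)) (by omega) h2
        rw [union_comm]; exact hAe
  · push Not at hN
    set N := A.filter fun x => r u x with hNdef
    set B := A.filter fun x => ¬ r u x ∧ x ≠ u with hBdef
    have uN : u ∉ N := by rw [hNdef, mem_filter]; exact fun h => hi u h.2
    have hAe : A = N ∪ {u} ∪ B := by
      ext x
      simp only [hNdef, hBdef, mem_union, mem_filter, mem_singleton]
      constructor
      · intro hx
        by_cases h : r u x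
        · exact Or.inl (Or.inl ⟨hx, h⟩)
        · by_cases h' : x = u
          · exact Or.inl (Or.inr h')
          · exact Or.inr ⟨hx, h, h'⟩
      · rintro ((h | h) | h)
        · exact h.1
        · rw [h]; exact hu
        · exact h.1
    have hNstab : Stab r N := by
      intro x hx y hy
      rw [hNdef, mem_filter] at hx hy
      exact hN x hx.1 y hy.1 hx.2 hy.2
    by_cases hB : B.Nonempty
    · left
      refine ⟨N, {u}, B, ⟨hAe, ?_, ?_, ?_, singleton_nonempty u, hB, ?_⟩, hNstab, uN⟩
      · rw [disjoint_singleton_right]; exact uN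
      · rw [disjoint_left]; intro x hx hx'
        rw [hNdef, mem_filter] at hx
        rw [hBdef, mem_filter] at hx'
        exact hx'.2.1 hx.2
      · rw [disjoint_singleton_left, hBdef, mem_filter]
        exact fun h => h.2.2 rfl
      · intro x hx y hy hxy
        rw [mem_singleton] at hx
        subst hx
        rw [hBdef, mem_filter] at hy
        exact hy.2.1 hxy
    · rw [not_nonempty_iff_eq_empty] at hB
      rw [hB, union_empty] at hAe
      have hc : A.card = N.card + 1 := by
        rw [hAe, card_union_of_disjoint (by rw [disjoint_singleton_right]; exact uN), card_singleton]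
      have hm2 : m2 r A = m2 r N + 2 * N.card := by
        have : A = insert u N := by rw [hAe, union_comm]; rfl
        rw [this, m2_insert hs hi uN]
        congr 2
        rw [filter_true_of_mem]
        intro x hx
        rw [hNdef, mem_filter] at hx
        exact hx.2
      have hN2 : 2 ≤ N.card := by omega
      obtain ⟨a, ha, b, hb, hab⟩ := one_lt_card.1 (by omega : 1 < N.card)
      right
      refine ⟨{a}, N.erase a, ⟨?_, ?_, ?_, ?_, singleton_nonempty a, ⟨b, mem_erase.2 ⟨hab.symm, hb⟩⟩,
        ?_⟩⟩
      · rw [hAe]
        ext x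
        simp only [mem_union, mem_singleton, mem_erase]
        constructor
        · rintro (h | h)
          · by_cases e : x = a
            · exact Or.inl (Or.inr e)
            · exact Or.inr ⟨e, h⟩
          · exact Or.inl (Or.inl h)
        · rintro ((h | h) | h)
          · exact Or.inr h
          · rw [h]; exact Or.inl ha
          · exact Or.inl h.2
      · rw [disjoint_singleton]
        rintro rfl
        exact uN ha
      · rw [disjoint_singleton_left]
        exact fun h => uN (mem_of_mem_erase h)
      · rw [disjoint_singleton_left]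
        exact notMem_erase a N
      · intro x hx y hy
        rw [mem_singleton] at hx
        subst hx
        exact hNstab x ha y (mem_of_mem_erase hy)

end Pool.Agent.Lib.BipCut
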